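import Mathlib

set_option autoImplicit false

/-!
# Dynamical Bogomolov for one-parameter families: dynamically related points without small points

`T` is the affine line over `k`, an algebraic closure of `ℚ`, `f_t (z) = (z - t)² + t`, `a_t = t`,
`b_t = t + 2`. All three maps are non-constant. As `f_t (a_t) = a_t`, the points `a` and `b` are
`f`-dynamically related: the curve `{a} × P¹` is invariant. But the canonical height of `b_t` is
`log 2` for every `t`.
-/

namespace Pool.Agent.Results.MP_deaef0_nt.IsotrivialFamily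

open Polynomial Filter Topology NumberField

/-- an algebraic closure of the rational numbers -/
abbrev k : Type := AlgebraicClosure ℚ

/-- An algebraic map from the affine line to the projective line: `t ↦ [u (t) : v (t)]`. -/
structure PointFamily where
  /-- the first coordinate -/
  u : k[X]
  /-- the second coordinate -/
  v : k[X]
  no_common_zero : ∀ t : k, ¬ (u.eval t = 0 ∧ v.eval t = 0)

namespace PointFamily

/-- the point `[u : v]` in coordinates from a `k[X]`-algebra -/
noncomputable def vec (a : PointFamily) {R : Type} [CommRing R] (φ : k[X] →+* R) : Fin 2 → R := ![φ a.u, φ a.v]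

/-- the map is not constant -/
def Nonconstant (a : PointFamily) : Prop :=
  ∃ s t : k, a.u.eval s * a.v.eval t ≠ a.u.eval t * a.v.eval s

end PointFamily

/-- An algebraic map from the affine line to the space of endomorphisms of degree `d` of the
projective line: `f_t = [F_t : G_t]`, where `F i`, `G i` are the coefficients of `x₀ ^ i x₁ ^ (d - i)`,
polynomials in `t`; for all `t` the only common zero of `F_t` and `G_t` in `k²` is `(0, 0)`, that is,
the resultant of `F_t` and `G_t` is not zero. -/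
structure MapFamily (d : ℕ) where
  /-- the coefficients of the first form -/
  F : Fin (d + 1) → k[X]
  /-- the coefficients of the second form -/
  G : Fin (d + 1) → k[X]
  nondegenerate : ∀ (t : k) (x : Fin 2 → k),
    ∑ i : Fin (d + 1), (F i).eval t * x 0 ^ (i : ℕ) * x 1 ^ (d - i) = 0 →
    ∑ i : Fin (d + 1), (G i).eval t * x 0 ^ (i : ℕ) * x 1 ^ (d - i) = 0 → x = 0

namespace MapFamily

variable {d : ℕ}

/-- the action on coordinates from a `k[X]`-algebra -/
noncomputable def act (f : MapFamily d) {R : Type} [CommRing R] (φ : k[X] →+* R) (x : Fin 2 → R) : Fin 2 → R :=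
  ![∑ i : Fin (d + 1), φ (f.F i) * x 0 ^ (i : ℕ) * x 1 ^ (d - i),
    ∑ i : Fin (d + 1), φ (f.G i) * x 0 ^ (i : ℕ) * x 1 ^ (d - i)]

/-- the vector of all coefficients at the parameter `t`, a point of `P^(2d+1)` -/
noncomputable def coeffs (f : MapFamily d) (t : k) : Fin (d + 1) ⊕ Fin (d + 1) → k :=
  Sum.elim (fun i => (f.F i).eval t) (fun i => (f.G i).eval t)

/-- the map `t ↦ f_t` is not constant -/
def Nonconstant (f : MapFamily d) : Prop :=
  ∃ (s t : k) (i j : Fin (d + 1) ⊕ Fin (d + 1)),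
    f.coeffs s i * f.coeffs t j ≠ f.coeffs t i * f.coeffs s j

end MapFamily

open Classical in
/-- the absolute logarithmic Weil height of the point `[x 0 : x 1]` -/
noncomputable def height (x : Fin 2 → k) : ℝ := if x 1 = 0 then 0 else absLogHeight₁ (x 0 / x 1)

/-- the sequence `d ^ (-n) h (g ^ n (x))` -/
noncomputable def heightSeq (d : ℕ) (g : (Fin 2 → k) → (Fin 2 → k)) (x : Fin 2 → k) (n : ℕ) : ℝ :=
  height (g^[n] x) / (d : ℝ) ^ n

/-- the canonical height -/
noncomputable def canHeight (d : ℕ) (g : (Fin 2 → k) → (Fin 2 → k)) (x : Fin 2 → k) : ℝ :=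
  limUnder atTop (heightSeq d g x)

/-- statement (a) -/
def SmallPoints {d : ℕ} (f : MapFamily d) (a b : PointFamily) : Prop :=
  ∀ ε : ℝ, 0 < ε → {t : k | canHeight d (f.act (evalRingHom t)) (a.vec (evalRingHom t)) ≤ ε ∧
    canHeight d (f.act (evalRingHom t)) (b.vec (evalRingHom t)) ≤ ε}.Infinite

/-- an algebraic closure of the function field of the line -/
abbrev K : Type := AlgebraicClosure (RatFunc k)

/-- the embedding of the polynomials -/
noncomputable def toK : k[X] →+* K := (algebraMap (RatFunc k) K).comp (algebraMap k[X] (RatFunc k))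

/-- statement (b): for some curve `C = {P = 0}` in `P¹ × P¹` over `K`, where `P ≠ 0` is a form of
bidegree `(m, n) ≠ (0, 0)` in the coordinates of the two factors, `(a, b)` lies on `C` and
`(f × f) (C) ⊆ C`. -/
def Related {d : ℕ} (f : MapFamily d) (a b : PointFamily) : Prop :=
  ∃ (m n : ℕ) (P : MvPolynomial (Fin 2 ⊕ Fin 2) K), P ≠ 0 ∧ (m, n) ≠ (0, 0) ∧
    (∀ s ∈ P.support, s (Sum.inl 0) + s (Sum.inl 1) = m ∧ s (Sum.inr 0) + s (Sum.inr 1) = n) ∧
    MvPolynomial.eval (Sum.elim (a.vec toK) (b.vec toK)) P = 0 ∧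
    ∀ x y : Fin 2 → K, x ≠ 0 → y ≠ 0 → MvPolynomial.eval (Sum.elim x y) P = 0 →
      MvPolynomial.eval (Sum.elim (f.act toK x) (f.act toK y)) P = 0

/-! ### The heights -/

lemma mulHeight_two (L : Type) [Field L] [NumberField L] :
    Height.logHeight₁ (2 : L) = Module.finrank ℚ L * Real.log 2 := by
  rw [Height.logHeight₁_eq_log_mulHeight₁, NumberField.mulHeight₁_eq]
  have h1 : ∀ v : InfinitePlace L, max (v 2) 1 ^ v.mult = (2 : ℝ) ^ v.mult := by
    intro v
    have : v (2 : L) = 2 := by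
      rw [← InfinitePlace.norm_embedding_eq v]
      rw [map_ofNat]
      simp
    rw [this, max_eq_left (by norm_num)]
  have h2 : ∀ v : FinitePlace L, max (v 2) 1 = 1 := by
    intro v
    have hv : IsNonarchimedean (v ·) := FinitePlace.add_le v
    have : v ((2 : ℤ) : L) ≤ 1 := IsNonarchimedean.apply_intCast_le_one hv
    rw [max_eq_right (by simpa using this)]
  rw [finprod_eq_one_of_forall_eq_one h2, mul_one, Finset.prod_congr rfl fun v _ => h1 v,
    Finset.prod_pow_eq_pow_sum, InfinitePlace.sum_mult_eq, Real.log_pow]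

section general

variable {E : Type} [Field E] [CharZero E]

lemma absLog_eq (x : E) (hi : IsIntegral ℚ x) (L : IntermediateField ℚ E) [NumberField L] (hL : IntermediateField.adjoin ℚ {x} = L)
    (hx : x ∈ L) : absLogHeight₁ x = Height.logHeight₁ (⟨x, hx⟩ : L) / Module.finrank ℚ L := by
  subst hL
  unfold absLogHeight₁ absMulHeight₁
  rw [dif_pos hi, Real.log_rpow (Height.mulHeight₁_pos _), Height.logHeight₁_eq_log_mulHeight₁]
  rw [div_eq_inv_mul]
  rfl

lemma absLog_add_two_pow (hint : ∀ x : E, IsIntegral ℚ x) (t : E) : Tendsto (fun n : ℕ => absLogHeight₁ (t + 2 ^ 2 ^ n) / (2 : ℝ) ^ n) atTop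
    (𝓝 (Real.log 2)) := by
  obtain ⟨L, hL⟩ : ∃ L : IntermediateField ℚ E, L = IntermediateField.adjoin ℚ {t} := ⟨_, rfl⟩
  have hi : IsIntegral ℚ t := hint t
  have : FiniteDimensional ℚ L := by
    rw [hL]
    exact IntermediateField.adjoin.finiteDimensional hi
  have : NumberField L := {}
  have ht : t ∈ L := by
    rw [hL]
    exact IntermediateField.mem_adjoin_simple_self ℚ t
  have h2 : ∀ n : ℕ, (2 : E) ^ 2 ^ n ∈ L := fun n => pow_mem (ofNat_mem L 2) _
  have hadj : ∀ n : ℕ, IntermediateField.adjoin ℚ {t + 2 ^ 2 ^ n} = L := by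
    intro n
    apply le_antisymm
    · rw [IntermediateField.adjoin_simple_le_iff]
      exact add_mem ht (h2 n)
    · rw [hL, IntermediateField.adjoin_simple_le_iff]
      have h3 : t + 2 ^ 2 ^ n ∈ IntermediateField.adjoin ℚ {t + 2 ^ 2 ^ n} :=
        IntermediateField.mem_adjoin_simple_self ℚ _
      have h4 : (2 : E) ^ 2 ^ n ∈ IntermediateField.adjoin ℚ {t + 2 ^ 2 ^ n} := pow_mem (ofNat_mem _ 2) _
      have h5 := sub_mem h3 h4
      rwa [add_sub_cancel_right] at h5
  obtain ⟨D, hD⟩ : ∃ D : ℝ, D = Module.finrank ℚ L := ⟨_, rfl⟩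
  have hD0 : 0 < D := by
    rw [hD]
    exact_mod_cast Module.finrank_pos
  obtain ⟨τ, hτ⟩ : ∃ τ : L, τ = ⟨t, ht⟩ := ⟨_, rfl⟩
  have hval : ∀ n : ℕ, absLogHeight₁ (t + 2 ^ 2 ^ n) = Height.logHeight₁ (τ + 2 ^ 2 ^ n) / D := by
    intro n
    rw [absLog_eq _ (hint _) L (hadj n) (add_mem ht (h2 n)), hD]
    congr 2
    rw [hτ]
    rfl
  have hpow : ∀ n : ℕ, Height.logHeight₁ ((2 : L) ^ 2 ^ n) = 2 ^ n * (D * Real.log 2) := by
    intro n
    rw [Height.logHeight₁_pow, mulHeight_two, hD]
    push_cast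
    ring
  obtain ⟨C, hC⟩ : ∃ C : ℝ, C = (Height.totalWeight L * Real.log 2 + Height.logHeight₁ τ) / D := ⟨_, rfl⟩
  have hup : ∀ n : ℕ, absLogHeight₁ (t + 2 ^ 2 ^ n) / (2 : ℝ) ^ n ≤ Real.log 2 + C * (1 / 2) ^ n := by
    intro n
    rw [hval]
    have h3 := Height.logHeight₁_add_le τ (2 ^ 2 ^ n)
    rw [hpow] at h3
    have h4 : (0 : ℝ) < 2 ^ n := by positivity
    rw [div_le_iff₀ h4, div_le_iff₀ hD0, hC]
    have h5 : ((1 : ℝ) / 2) ^ n * 2 ^ n = 1 := by rw [← mul_pow]; norm_num
    calc Height.logHeight₁ (τ + 2 ^ 2 ^ n) ≤ _ := h3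
      _ = (Real.log 2 * 2 ^ n + (Height.totalWeight L * Real.log 2 + Height.logHeight₁ τ) / D *
            ((1 / 2) ^ n * 2 ^ n)) * D := by
          rw [h5]; field_simp; ring
      _ = _ := by ring
  have hlo : ∀ n : ℕ, Real.log 2 - C * (1 / 2) ^ n ≤ absLogHeight₁ (t + 2 ^ 2 ^ n) / (2 : ℝ) ^ n := by
    intro n
    rw [hval]
    have h3 := Height.logHeight₁_sub_le (τ + 2 ^ 2 ^ n) τ
    rw [add_sub_cancel_left, hpow] at h3
    have h4 : (0 : ℝ) < 2 ^ n := by positivity
    rw [le_div_iff₀ h4, le_div_iff₀ hD0, hC]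
    have h5 : ((1 : ℝ) / 2) ^ n * 2 ^ n = 1 := by rw [← mul_pow]; norm_num
    have h6 : (Real.log 2 - (Height.totalWeight L * Real.log 2 + Height.logHeight₁ τ) / D * (1 / 2) ^ n) *
        2 ^ n * D = 2 ^ n * (D * Real.log 2) - (Height.totalWeight L * Real.log 2 + Height.logHeight₁ τ) *
          ((1 / 2) ^ n * 2 ^ n) := by
      field_simp
    rw [h6, h5]
    linarith
  have hlim : Tendsto (fun n : ℕ => C * ((1 : ℝ) / 2) ^ n) atTop (𝓝 0) := by
    have := (tendsto_pow_atTop_nhds_zero_of_lt_one (by norm_num : (0 : ℝ) ≤ 1 / 2) (by norm_num)).const_mul C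
    simpa using this
  refine tendsto_of_tendsto_of_tendsto_of_le_of_le (g := fun n => Real.log 2 - C * (1 / 2) ^ n)
    (h := fun n => Real.log 2 + C * (1 / 2) ^ n) ?_ ?_ hlo hup
  · have := (tendsto_const_nhds (x := Real.log 2)).sub hlim
    simpa using this
  · have := (tendsto_const_nhds (x := Real.log 2)).add hlim
    simpa using this

end general

lemma isIntegral_k (x : k) : @IsIntegral ℚ k _ _ DivisionRing.toRatAlgebra x := by
  have h1 : @IsIntegral ℚ k _ _ (AlgebraicClosure.instAlgebra ℚ) x :=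
    ((AlgebraicClosure.isAlgebraic ℚ).isAlgebraic x).isIntegral
  have h2 : (AlgebraicClosure.instAlgebra ℚ : Algebra ℚ k) = DivisionRing.toRatAlgebra := Subsingleton.elim _ _
  rwa [h2] at h1

/-! ### The example -/

/-- `a_t = [t : 1]` -/
noncomputable def aFam : PointFamily := ⟨X, 1, fun t h => by simp at h⟩

/-- `b_t = [t + 2 : 1]` -/
noncomputable def bFam : PointFamily := ⟨X + C 2, 1, fun t h => by simp at h⟩

/-- `f_t = [x₀² - 2 t x₀ x₁ + (t² + t) x₁² : x₁²]`, that is `f_t (z) = (z - t)² + t` -/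
noncomputable def fFam : MapFamily 2 where
  F := ![X ^ 2 + X, -(2 * X), 1]
  G := ![1, 0, 0]
  nondegenerate := by
    intro t x h1 h2
    simp [Fin.sum_univ_succ] at h1 h2
    rw [h2] at h1
    ext i
    fin_cases i
    · simpa using h1
    · simpa using h2

lemma act_eq {R : Type} [CommRing R] (φ : k[X] →+* R) (x : Fin 2 → R) :
    fFam.act φ x = ![(x 0 - φ X * x 1) ^ 2 + φ X * x 1 ^ 2, x 1 ^ 2] := by
  unfold MapFamily.act fFam
  ext i
  fin_cases i
  · simp [Fin.sum_univ_succ]
    rw [show φ 2 = 2 from map_ofNat φ 2]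
    ring
  · simp [Fin.sum_univ_succ]

lemma iterate_a (t : k) (n : ℕ) : (fFam.act (evalRingHom t))^[n] (aFam.vec (evalRingHom t)) = ![t, 1] := by
  induction n with
  | zero => simp [PointFamily.vec, aFam]
  | succ n ih =>
    rw [Function.iterate_succ_apply', ih, act_eq]
    simp

lemma iterate_b (t : k) (n : ℕ) :
    (fFam.act (evalRingHom t))^[n] (bFam.vec (evalRingHom t)) = ![t + 2 ^ 2 ^ n, 1] := by
  induction n with
  | zero => simp [PointFamily.vec, bFam]
  | succ n ih =>
    rw [Function.iterate_succ_apply', ih, act_eq]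
    simp
    ring

lemma seq_a (t : k) : Tendsto (heightSeq 2 (fFam.act (evalRingHom t)) (aFam.vec (evalRingHom t))) atTop
    (𝓝 0) := by
  unfold heightSeq
  simp only [iterate_a]
  have := (tendsto_pow_atTop_nhds_zero_of_lt_one (by norm_num : (0 : ℝ) ≤ 1 / 2) (by norm_num)).const_mul
    (height ![t, 1])
  rw [mul_zero] at this
  refine this.congr fun n => ?_
  push_cast
  rw [one_div, inv_pow, div_eq_mul_inv]

lemma seq_b (t : k) : Tendsto (heightSeq 2 (fFam.act (evalRingHom t)) (bFam.vec (evalRingHom t))) atTop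
    (𝓝 (Real.log 2)) := by
  unfold heightSeq
  simp only [iterate_b]
  refine (absLog_add_two_pow isIntegral_k t).congr fun n => ?_
  unfold height
  simp

lemma related : Related fFam aFam bFam := by
  refine ⟨1, 0, MvPolynomial.X (Sum.inl 0) - MvPolynomial.C (toK X) * MvPolynomial.X (Sum.inl 1), ?_, by simp,
    ?_, ?_, ?_⟩
  · intro h
    have h1 := congrArg (MvPolynomial.eval (Sum.elim ![1, 0] 0 : Fin 2 ⊕ Fin 2 → K)) h
    simp at h1
  · intro s hs
    have h1 := MvPolynomial.support_sub _ _ _ hs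
    rw [Finset.mem_union] at h1
    rcases h1 with h1 | h1
    · rw [MvPolynomial.support_X, Finset.mem_singleton] at h1
      subst h1
      simp
    · have h2 : s ∈ (MvPolynomial.X (Sum.inl 1) : MvPolynomial (Fin 2 ⊕ Fin 2) K).support := by
        rw [← MvPolynomial.smul_eq_C_mul] at h1
        exact MvPolynomial.support_smul h1
      rw [MvPolynomial.support_X, Finset.mem_singleton] at h2
      subst h2
      simp
  · simp [PointFamily.vec, aFam]
  · intro x y _ _ h
    simp only [map_sub, map_mul, MvPolynomial.eval_X, MvPolynomial.eval_C, Sum.elim_inl] at h ⊢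
    rw [act_eq]
    simp only [Matrix.cons_val_zero, Matrix.cons_val_one, Matrix.cons_val_fin_one]
    rw [h]
    ring

/-- **Statement (b) does not imply statement (a).** -/
theorem result : ∃ (d : ℕ) (_ : 2 ≤ d) (f : MapFamily d) (a b : PointFamily),
    f.Nonconstant ∧ a.Nonconstant ∧ b.Nonconstant ∧ Related f a b ∧ ¬ SmallPoints f a b ∧
    ∀ t : k, Tendsto (heightSeq d (f.act (evalRingHom t)) (a.vec (evalRingHom t))) atTop (𝓝 0) ∧
      Tendsto (heightSeq d (f.act (evalRingHom t)) (b.vec (evalRingHom t))) atTop (𝓝 (Real.log 2)) := by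
  refine ⟨2, le_rfl, fFam, aFam, bFam, ?_, ?_, ?_, related, ?_, fun t => ⟨seq_a t, seq_b t⟩⟩
  · refine ⟨0, 1, Sum.inl 0, Sum.inl 2, ?_⟩
    simp [MapFamily.coeffs, fFam, one_add_one_eq_two]
  · exact ⟨0, 1, by simp [aFam]⟩
  · exact ⟨0, 1, by simp [bFam]⟩
  · intro h
    apply h (Real.log 2 / 2) (by positivity)
    have : {t : k | canHeight 2 (fFam.act (evalRingHom t)) (aFam.vec (evalRingHom t)) ≤ Real.log 2 / 2 ∧
        canHeight 2 (fFam.act (evalRingHom t)) (bFam.vec (evalRingHom t)) ≤ Real.log 2 / 2} = ∅ := by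
      ext t
      simp only [Set.mem_ofPred_eq, Set.mem_empty_iff_false, iff_false, not_and]
      intro _ h2
      have h3 : canHeight 2 (fFam.act (evalRingHom t)) (bFam.vec (evalRingHom t)) = Real.log 2 :=
        (seq_b t).limUnder_eq
      rw [h3] at h2
      have := Real.log_pos (by norm_num : (1 : ℝ) < 2)
      linarith
    rw [this]
    exact Set.finite_empty

end Pool.Agent.Results.MP_deaef0_nt.IsotrivialFamily
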